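import Pool.Agent.H57.LH.Targets2

/-!
Canonization on finite sets.
-/

set_option autoImplicit false
set_option linter.unusedVariables false

namespace Pool.Agent.H11.LH
open Pool.Agent.H68.BP Pool.Agent.H58.SF Pool.Agent.H53.GC Pool.Agent.H53.NR
open Pool.Agent.H53.GR (Dm Ps)
open Pool.Agent.H57.AR (tp ty tpo pullO Ty OT HomEq El ElD FamR Od GmR INJ lft)
open Pool.Agent.H57.SO (Pal Col vt Bh Sbn fib sigF)
open Pool.Agent.H57.EQ (Cx T_CYF)
open Pool.Agent.H57.LCI (LocalCompletions Pre Realizes)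
open Pool.Agent.H44.KR (HB Amg Tyi Rz Rlz Clp LInj Prm TpOn RmL LcN Pl lr blk Fv kv RkI Kd JJ Yc IsTh Can Plf Pls)
open Pool.Agent.H57.LH Function

section

variable {V W Z : Type} {σ ρ : Sig}

theorem tp_comp (𝔹 : Str ρ V) (f g : Z → V) (s : W → Z) (h : tp 𝔹 f = tp 𝔹 g) :
    tp 𝔹 (fun a => f (s a)) = tp 𝔹 (fun a => g (s a)) :=
  congrArg (fun t => Pool.Agent.H57.AR.pullT t s) h

end

theorem finite_OT (ρ : Sig) (K : ℕ) : Finite (OT ρ (Fin K)) := by
  have h : Finite (Str ρ (Fin K)) :=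
    inferInstanceAs (Finite ((l : Fin ρ.m) → (Fin (ρ.ar l) → Fin K) → Prop))
  exact inferInstance

theorem pf_CNA : T_CNA := by
  classical
  intro V σ ρ _ 𝔸 𝔹 hne hT hP I _ R hL K F
  obtain ⟨v₀⟩ := hne
  have hY : Finite (OT ρ (Fin K)) := finite_OT ρ K
  let x : Fin F.card → V := F.orderEmbOfFin rfl
  let idx : F → Fin F.card := (F.orderIsoOfFin rfl).symm
  have hxi : ∀ v : F, x (idx v) = v.1 := by
    intro v
    have h1 : (F.orderIsoOfFin rfl) (idx v) = v := (F.orderIsoOfFin rfl).apply_symm_apply v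
    have h2 : ((F.orderIsoOfFin rfl) (idx v) : V) = v.1 := by rw [h1]
    rw [Finset.coe_orderIsoOfFin_apply] at h2
    exact h2
  have hmono : StrictMono x := (F.orderEmbOfFin rfl).strictMono
  obtain ⟨N, e, hN⟩ := hP I K (OT ρ (Fin K)) (fun _ => F.card) (fun _ => x)
    (fun _ => hmono.injective)
  obtain ⟨ψ₀, hC, hR⟩ := hL ((i : I) → Fin (N i)) (fun i w => e i (w i))
  obtain ⟨φ, hφ1, hφ2⟩ := hN (fun a => tpo 𝔹 (fun j : Fin K => ψ₀ (fun i => a i j)))
  let ψ : (I → V) → V := fun u =>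
    if h : ∀ i, u i ∈ F then ψ₀ (fun i => φ i (idx ⟨u i, h i⟩)) else v₀
  have hψ : ∀ (u : I → V) (h : ∀ i, u i ∈ F), ψ u = ψ₀ (fun i => φ i (idx ⟨u i, h i⟩)) := by
    intro u h
    exact dif_pos h
  have hwd : ∀ z z' : Fin K → I → V, (∀ a i, z a i ∈ F) → (∀ a i, z' a i ∈ F) →
      ((fun i => tpo 𝔹 (fun a => z a i)) = fun i => tpo 𝔹 (fun a => z' a i)) →
      tpo 𝔹 (fun a => ψ (z a)) = tpo 𝔹 (fun a => ψ (z' a)) := by
    intro z z' hz hz' hT'
    have h1 := hφ2 (fun i j => idx ⟨z j i, hz j i⟩) (fun i j => idx ⟨z' j i, hz' j i⟩) ?_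
    · have e1 : (fun a => ψ (z a)) = fun j => ψ₀ (fun i => φ i (idx ⟨z j i, hz j i⟩)) := by
        funext j
        exact hψ _ _
      have e2 : (fun a => ψ (z' a)) = fun j => ψ₀ (fun i => φ i (idx ⟨z' j i, hz' j i⟩)) := by
        funext j
        exact hψ _ _
      rw [e1, e2]
      exact h1
    · intro i
      have h2 := congrFun hT' i
      simp only [tpo, Prod.mk.injEq] at h2
      simp only [hxi]
      refine ⟨h2.1, fun b b' => ?_⟩
      have h3 := congrFun (congrFun h2.2 b) b'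
      rw [← hmono.lt_iff_lt, ← hmono.lt_iff_lt, hxi, hxi, hxi, hxi]
      exact iff_of_eq h3
  refine ⟨fun T => if h : ∃ z : Fin K → I → V, (∀ a i, z a i ∈ F) ∧
      (fun i => tpo 𝔹 (fun a => z a i)) = T then tpo 𝔹 (fun a => ψ (h.choose a)) else
      (fun _ _ => False, fun _ _ => False), ψ, ?_, ?_, ?_⟩
  · intro l z hz hA
    have e1 : (fun a => ψ (z a)) = fun a => ψ₀ (fun i => φ i (idx ⟨z a i, hz a i⟩)) := by
      funext a
      exact hψ _ _
    rw [e1]
    refine hC l (fun a i => φ i (idx ⟨z a i, hz a i⟩)) (fun i => ?_)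
    refine hT l _ _ (hA i) ?_
    have h2 := tp_comp 𝔹 _ _ (fun a => idx ⟨z a i, hz a i⟩) (hφ1 i)
    simp only [hxi] at h2
    exact h2
  · intro u w hu hw
    have h1 := hR (fun i => φ i (idx ⟨u i, hu i⟩)) (fun i => φ i (idx ⟨w i, hw i⟩))
    rw [← hψ u hu, ← hψ w hw] at h1
    have e2 : (fun i => tp 𝔹 ![e i (φ i (idx ⟨u i, hu i⟩)), e i (φ i (idx ⟨w i, hw i⟩))]) =
        fun i => tp 𝔹 ![u i, w i] := by
      funext i
      have h2 := tp_comp 𝔹 _ _ (![idx ⟨u i, hu i⟩, idx ⟨w i, hw i⟩] : Fin 2 → Fin F.card) (hφ1 i)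
      have e3 : (fun a => x ((![idx ⟨u i, hu i⟩, idx ⟨w i, hw i⟩] : Fin 2 → Fin F.card) a)) =
          ![u i, w i] := by
        funext a
        fin_cases a
        · exact hxi _
        · exact hxi _
      have e4 : (fun a => e i (φ i ((![idx ⟨u i, hu i⟩, idx ⟨w i, hw i⟩] :
          Fin 2 → Fin F.card) a))) =
          ![e i (φ i (idx ⟨u i, hu i⟩)), e i (φ i (idx ⟨w i, hw i⟩))] := by
        funext a
        fin_cases a
        · rfl
        · rfl
      rw [e3, e4] at h2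
      exact h2
    rw [e2] at h1
    exact h1
  · intro z hz
    have h : ∃ z' : Fin K → I → V, (∀ a i, z' a i ∈ F) ∧
      (fun i => tpo 𝔹 (fun a => z' a i)) = fun i => tpo 𝔹 (fun a => z a i) := ⟨z, hz, rfl⟩
    show _ = dite _ _ _
    rw [dif_pos h]
    exact hwd _ _ hz h.choose_spec.1 h.choose_spec.2.symm

end Pool.Agent.H11.LH
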